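import Pool.Agent.P.MP_93ad88_nt.Frob

namespace Pool.Agent.P.MP_93ad88_nt

open Polynomial Finset

lemma D_coeff {p : ℕ} {D : ℤ[X]} (hD : expand ℤ p PP = D * PP) {k : ℕ} (hk : k < p) :
    D.coeff k = chi (k + 1) := by
  rw [coeff_div D k, ← hD, sum_eq_single 0]
  · simp [expand_PP, coeff_X_pow, show 0 ≠ p by omega, show 0 ≠ p * 2 by omega]
  · intro s hs h0
    have : s < k + 1 := mem_range.1 hs
    simp [expand_PP, coeff_X_pow, coeff_one, h0, show s ≠ p by omega, show s ≠ p * 2 by omega]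
  · intro h; simp at h

section
variable {q : ℕ} (hp : (q + 1).Prime) (h3 : (q + 1) % 3 ≠ 0) (h2 : q + 1 ≠ 2)

include hp h3 in
lemma t_q_mod {k : ℕ} (hk : k < q + 1) : ((q + 1 : ℕ) : ℤ) ∣ t q k - chi (k + 1) := by
  obtain ⟨D, H, hD, hH, -, -⟩ := exists_DH hp h3
  refine ⟨H.coeff k, ?_⟩
  rw [t, hH, coeff_add, coeff_C_mul, D_coeff hD hk]; ring

include hp h3 in
lemma t_p_mul {i : ℕ} (hi : i < q) : ((q + 1 : ℕ) : ℤ) ^ 2 ∣
    ((i : ℤ) + 1) * t (q + 1) (i + 1) - ((q + 1 : ℕ) : ℤ) * (chi (i + 1) + 2 * chi i) := by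
  rcases i with _ | k
  · simp [t_one, chi]
  · obtain ⟨a, ha⟩ := t_q_mod hp h3 (k := k) (by omega)
    obtain ⟨b, hb⟩ := t_q_mod hp h3 (k := k + 1) (by omega)
    refine ⟨b + 2 * a, ?_⟩
    have := t_deriv q k
    push_cast at *
    simp only [add_assoc, show (1 + 1 : ℕ) = 2 from rfl] at *
    linear_combination this + (q + 1) * hb + 2 * (q + 1) * ha

lemma prime_int {p : ℕ} (hp : p.Prime) : Prime (p : ℤ) := Nat.prime_iff_prime_int.1 hp

lemma not_dvd_small {p : ℕ} {k : ℕ} (h0 : 0 < k) (hk : k < p) : ¬ (p : ℤ) ∣ (k : ℤ) := by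
  intro h
  exact absurd (Nat.le_of_dvd h0 (by exact_mod_cast h)) (by omega)

include hp h3 in
lemma t_p_dvd {i : ℕ} (hi : i < q) : ((q + 1 : ℕ) : ℤ) ∣ t (q + 1) (i + 1) := by
  obtain ⟨a, ha⟩ := t_p_mul hp h3 hi
  have h1 : ((q + 1 : ℕ) : ℤ) ∣ ((i + 1 : ℕ) : ℤ) * t (q + 1) (i + 1) :=
    ⟨chi (i + 1) + 2 * chi i + ((q + 1 : ℕ) : ℤ) * a, by push_cast at *; linear_combination ha⟩
  exact ((prime_int hp).dvd_or_dvd h1).resolve_left (not_dvd_small (by omega) (by omega))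

include hp h3 h2 in
/-- `T(p) = 1 mod p^2` -/
lemma T_p : ((q + 1 : ℕ) : ℤ) ^ 2 ∣ trinomial (q + 1) - 1 := by
  have hodd : Odd (q + 1) := hp.odd_of_ne_two h2
  have e : ((X + C (-1) : ℤ[X]) ^ (q + 1)) * PP ^ (q + 1)
      = expand ℤ 3 ((X + C (-1) : ℤ[X]) ^ (q + 1)) := by
    rw [← mul_pow, map_pow]
    congr 1
    simp only [map_add, expand_X, expand_C, PP, map_neg, map_one]
    ring
  have h := congrArg (fun f => coeff f (q + 1)) e
  rw [coeff_expand (by norm_num), if_neg (by omega), coeff_mul,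
    Nat.sum_antidiagonal_eq_sum_range_succ (fun i j => ((X + C (-1) : ℤ[X]) ^ (q + 1)).coeff i *
      (PP ^ (q + 1)).coeff j), sum_range_succ, sum_range_succ'] at h
  simp only [coeff_X_add_C_pow, Nat.sub_zero, Nat.sub_self, Nat.choose_zero_right, Nat.choose_self,
    hodd.neg_one_pow] at h
  have h0 : (PP ^ (q + 1)).coeff 0 = 1 := t_zero _
  have hs : ((q + 1 : ℕ) : ℤ) ^ 2 ∣ ∑ k ∈ range q, (-1) ^ (q + 1 - (k + 1)) *
      (((q + 1).choose (k + 1) : ℕ) : ℤ) * (PP ^ (q + 1)).coeff (q + 1 - (k + 1)) := by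
    refine dvd_sum fun k hk => ?_
    have hk' : k < q := mem_range.1 hk
    rw [sq, mul_assoc]
    refine Dvd.dvd.mul_left (mul_dvd_mul ?_ ?_) _
    · exact_mod_cast hp.dvd_choose_self (by omega) (by omega)
    · have := t_p_dvd hp h3 (i := q - 1 - k) (by omega)
      rw [show q - 1 - k + 1 = q + 1 - (k + 1) by omega] at this
      exact this
  rw [h0] at h
  obtain ⟨w, hw⟩ := hs
  refine ⟨w, ?_⟩
  rw [tri_eq, t]
  push_cast at *
  linear_combination hw - h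

lemma chi_sym (i j : ℕ) (h : (i + j + 2) % 3 ≠ 0) :
    (3 * chi (j + 1) - 2 * chi (i + j + 2)) * (chi (i + 1) + 2 * chi i)
      = (3 * chi (i + 1) - 2 * chi (i + j + 2)) * (chi (j + 1) + 2 * chi j) := by
  have hi : i % 3 = 0 ∨ i % 3 = 1 ∨ i % 3 = 2 := by omega
  have hj : j % 3 = 0 ∨ j % 3 = 1 ∨ j % 3 = 2 := by omega
  unfold chi
  rcases hi with hi | hi | hi <;> rcases hj with hj | hj | hj <;>
    simp [Nat.add_mod, hi, hj] at h ⊢

lemma sum_t (n : ℕ) : ∑ s ∈ range (2 * n + 1), t n s = 3 ^ n := by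
  have h := eval_eq_sum_range (p := PP ^ n) (1 : ℤ)
  rw [PP_pow_natDegree] at h
  simp only [one_pow, mul_one] at h
  unfold t
  rw [← h]
  simp [PP]

lemma sum_t_half (n : ℕ) : 2 * ∑ s ∈ range n, t n s + trinomial n = 3 ^ n := by
  rw [← sum_t, show 2 * n + 1 = n + (n + 1) by ring, sum_range_add, sum_range_succ',
    ← sum_range_reflect (fun x => t n (n + (x + 1))), tri_eq, add_zero]
  have : ∑ j ∈ range n, t n (n + (n - 1 - j + 1)) = ∑ s ∈ range n, t n s :=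
    sum_congr rfl fun j hj => t_symm (by have := mem_range.1 hj; omega)
  rw [this]; ring

include hp h3 h2 in
/-- `T(p-1) = (p/3) 3^(p-1) mod p^2` -/
lemma T_q : ((q + 1 : ℕ) : ℤ) ^ 2 ∣ trinomial q - chi (q + 1) * 3 ^ q := by
  have hP := prime_int hp
  have h1 := coeff_div (PP ^ q) q
  rw [← pow_succ, sum_range_succ'] at h1
  have h4 := sum_t_half (q + 1)
  rw [sum_range_succ', t_zero] at h4
  obtain ⟨a, ha⟩ := T_p hp h3 h2
  set f : ℕ → ℤ := fun i => (3 * chi (q - i) - 2 * chi (q + 1)) * t (q + 1) (i + 1) with hf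
  have h5 : ((q + 1 : ℕ) : ℤ) ^ 2 ∣ 2 * ∑ i ∈ range q, f i := by
    rw [two_mul]
    nth_rewrite 2 [← sum_range_reflect]
    rw [← sum_add_distrib]
    refine dvd_sum fun i hi => ?_
    have hi' : i < q := mem_range.1 hi
    obtain ⟨j, hj⟩ : ∃ j, q = i + j + 1 := ⟨q - 1 - i, by omega⟩
    have e1 : q - 1 - i = j := by omega
    have e2 : q - i = j + 1 := by omega
    have e3 : q - j = i + 1 := by omega
    have e4 : q + 1 = i + j + 2 := by omega
    refine hP.pow_dvd_of_dvd_mul_left 2 (not_dvd_small (k := i + 1) (by omega) (by omega)) ?_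
    obtain ⟨u, hu⟩ := t_p_mul hp h3 hi'
    obtain ⟨v, hv⟩ := t_p_mul hp h3 (i := j) (by omega)
    obtain ⟨w, hw⟩ := t_p_dvd hp h3 (i := j) (by omega)
    have hs := chi_sym i j (by omega)
    rw [← e4] at hs
    simp only [hf, e1, e2, e3]
    have e5 : ((q + 1 : ℕ) : ℤ) = i + j + 2 := by rw [e4]; push_cast; ring
    refine ⟨(3 * chi (j + 1) - 2 * chi (q + 1)) * u - (3 * chi (i + 1) - 2 * chi (q + 1)) * v
      + (3 * chi (i + 1) - 2 * chi (q + 1)) * w, ?_⟩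
    set P : ℤ := ((q + 1 : ℕ) : ℤ)
    push_cast
    linear_combination (3 * chi (j + 1) - 2 * chi (q + 1)) * hu
      - (3 * chi (i + 1) - 2 * chi (q + 1)) * hv + P * hs
      + (3 * chi (i + 1) - 2 * chi (q + 1)) * P * hw
      - (3 * chi (i + 1) - 2 * chi (q + 1)) * t (q + 1) (j + 1) * e5
  have hq3 : 3 < q + 1 := by
    have := hp.two_le
    omega
  have h6 := hP.pow_dvd_of_dvd_mul_left 2 (not_dvd_small (k := 2) (by omega) (by omega)) h5
  refine hP.pow_dvd_of_dvd_mul_left 2 (not_dvd_small (k := 3) (by omega) hq3) ?_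
  obtain ⟨b, hb⟩ := h6
  have h7 : ∑ i ∈ range q, f i = 3 * ∑ k ∈ range q, chi (q + 1 - (k + 1)) * (PP ^ (q + 1)).coeff (k + 1)
      - 2 * chi (q + 1) * ∑ k ∈ range q, t (q + 1) (k + 1) := by
    rw [mul_sum, mul_sum, ← sum_sub_distrib]
    refine sum_congr rfl fun i _ => ?_
    simp only [hf, t, Nat.add_sub_add_right]; ring
  have h0 : (PP ^ (q + 1)).coeff 0 = 1 := t_zero _
  rw [h0, Nat.sub_zero] at h1
  refine ⟨b - chi (q + 1) * a, ?_⟩
  rw [tri_eq, t, h1]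
  push_cast at *
  linear_combination hb - h7 + chi (q + 1) * h4 - chi (q + 1) * ha

include hp h3 h2 in
/-- `T(pN-1) = (p/3) (1 + N (3^(p-1) - 1)) T(N-1) mod p^2` -/
lemma S2 (m : ℕ) : ((q + 1 : ℕ) : ℤ) ^ 2 ∣ trinomial ((q + 1) * m + q)
    - chi (q + 1) * (1 + (m + 1) * (3 ^ q - 1)) * trinomial m := by
  obtain ⟨D, H, hD, hH, dD, dH⟩ := exists_DH hp h3
  have key : ∀ m : ℕ, ∃ W : ℤ[X], PP ^ ((q + 1) * m + q)
      = (D + C (((q + 1 : ℕ) : ℤ) * (m + 1)) * H) * expand ℤ (q + 1) (PP ^ m)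
        + C (((q + 1 : ℕ) : ℤ) ^ 2) * W := by
    intro m
    induction m with
    | zero => exact ⟨0, by simpa using hH⟩
    | succ m ih =>
      obtain ⟨W, hW⟩ := ih
      refine ⟨W * PP ^ (q + 1) + ((m : ℤ[X]) + 1) * H * H * PP * expand ℤ (q + 1) (PP ^ m), ?_⟩
      rw [show (q + 1) * (m + 1) + q = ((q + 1) * m + q) + (q + 1) by ring, pow_add, hW,
        pow_succ PP m, map_mul (expand ℤ (q + 1)), hD]
      have e : PP ^ (q + 1) = (D + C ((q + 1 : ℕ) : ℤ) * H) * PP := by rw [pow_succ, hH]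
      simp only [map_mul, map_add, map_pow, map_natCast, map_one, Nat.cast_add, Nat.cast_one] at *
      set E := (expand ℤ (q + 1)) PP ^ m
      linear_combination ((D + ((q : ℤ[X]) + 1) * ((m : ℤ[X]) + 1) * H) * E) * e
  obtain ⟨W, hW⟩ := key m
  have hdeg : (D + C (((q + 1 : ℕ) : ℤ) * (m + 1)) * H).natDegree < q + 1 + q :=
    lt_of_le_of_lt (natDegree_add_le _ _) (max_lt (by omega)
      (lt_of_le_of_lt (natDegree_C_mul_le _ _) (by omega)))
  have h1 : trinomial q = chi (q + 1) + ((q + 1 : ℕ) : ℤ) * H.coeff q := by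
    rw [tri_eq, t, hH, coeff_add, coeff_C_mul, D_coeff hD (by omega)]
  obtain ⟨a, ha⟩ := T_q hp h3 h2
  refine ⟨W.coeff ((q + 1) * m + q) + (m + 1) * a * trinomial m, ?_⟩
  rw [tri_eq, t, hW, coeff_add, coeff_C_mul, coeff_mul_expand1 (by omega) _ _ _ hdeg, coeff_add,
    coeff_C_mul, D_coeff hD (by omega)]
  have : (PP ^ m).coeff m = trinomial m := rfl
  rw [this]
  linear_combination (m + 1) * trinomial m * (ha - h1)

include hp h3 in
/-- the basic digit congruence modulo `p^2` -/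
lemma K0 {k : ℕ} (hk : k < q + 1) : ∃ G : ℤ[X],
    PP ^ (q + 1) = expand ℤ (q + 1) PP + C ((q + 1 : ℕ) : ℤ) * G ∧ ∀ m : ℕ,
    ((q + 1 : ℕ) : ℤ) ^ 2 ∣ trinomial ((q + 1) * (m + 1) + k) - (trinomial k * trinomial (m + 1)
      + ((q + 1 : ℕ) : ℤ) * (m + 1) *
        (((PP ^ k * G).coeff k + (PP ^ k * G).coeff ((q + 1) * 2 + k)) * t m (m + 1)
          + (PP ^ k * G).coeff (q + 1 + k) * trinomial m)) := by
  obtain ⟨D, H, hD, hH, dD, dH⟩ := exists_DH hp h3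
  have e : PP ^ (q + 1) = expand ℤ (q + 1) PP + C ((q + 1 : ℕ) : ℤ) * (H * PP) := by
    rw [pow_succ, hH, hD]; ring
  refine ⟨H * PP, e, fun m => ?_⟩
  set G := H * PP with hG
  have dG : G.natDegree ≤ 2 * q + 2 :=
    natDegree_mul_le.trans (by rw [PP_natDegree]; omega)
  have key : ∀ m : ℕ, ∃ W : ℤ[X], PP ^ ((q + 1) * (m + 1))
      = expand ℤ (q + 1) (PP ^ (m + 1))
        + C (((q + 1 : ℕ) : ℤ) * (m + 1)) * (G * expand ℤ (q + 1) (PP ^ m))
        + C (((q + 1 : ℕ) : ℤ) ^ 2) * W := by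
    intro m
    obtain ⟨W, hW⟩ := powAddExpansion (expand ℤ (q + 1) PP) (C ((q + 1 : ℕ) : ℤ) * G) (m + 1)
    refine ⟨W * G ^ 2, ?_⟩
    rw [pow_mul, e, hW]
    simp only [map_mul, map_add, map_pow, map_natCast, map_one, Nat.cast_add, Nat.cast_one,
      Nat.add_sub_cancel]
    ring
  obtain ⟨W, hW⟩ := key m
  refine ⟨(PP ^ k * W).coeff ((q + 1) * (m + 1) + k), ?_⟩
  have e2 : PP ^ ((q + 1) * (m + 1) + k) = PP ^ k * expand ℤ (q + 1) (PP ^ (m + 1))
        + C (((q + 1 : ℕ) : ℤ) * (m + 1)) * ((PP ^ k * G) * expand ℤ (q + 1) (PP ^ m))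
        + C (((q + 1 : ℕ) : ℤ) ^ 2) * (PP ^ k * W) := by
    rw [pow_add, hW]; ring
  have d1 : (PP ^ k).natDegree < q + 1 + k := by rw [PP_pow_natDegree]; omega
  have d2 : (PP ^ k * G).natDegree < (q + 1) * 3 + k :=
    lt_of_le_of_lt natDegree_mul_le (by rw [PP_pow_natDegree]; omega)
  rw [tri_eq, t, e2, coeff_add, coeff_add, coeff_C_mul, coeff_C_mul, coeff_mul_expand1 hk _ _ _ d1,
    coeff_mul_expand3 hk _ _ _ d2, coeff_mul_X]
  have e3 : (PP ^ m * X ^ 2).coeff (m + 1) = t m (m + 1) := by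
    rcases m with _ | m
    · simp [t, coeff_one, coeff_X_pow]
    · rw [show m + 1 + 1 = m + 2 from rfl, coeff_mul_X_pow]
      exact t_symm (by ring)
  rw [e3]
  simp only [tri_eq, t]
  ring

include hp h3 h2 in
/-- `T(pN) = T(N) mod p^2` -/
lemma S1 (N : ℕ) : ((q + 1 : ℕ) : ℤ) ^ 2 ∣ trinomial ((q + 1) * N) - trinomial N := by
  rcases N with _ | m
  · simp
  obtain ⟨G, hG, h⟩ := K0 hp h3 (k := 0) (by omega)
  obtain ⟨w, hw⟩ := h m
  have hp0 : ((q + 1 : ℕ) : ℤ) ≠ 0 := by exact_mod_cast hp.ne_zero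
  have c0 := congrArg (fun f => coeff f 0) hG
  have c1 := congrArg (fun f => coeff f (q + 1)) hG
  have c2 := congrArg (fun f => coeff f ((q + 1) * 2)) hG
  simp only [coeff_add, coeff_C_mul, expand_PP, coeff_X_pow, coeff_one] at c0 c1 c2
  rw [if_pos trivial, if_neg (by omega), if_neg (by omega)] at c0
  rw [if_neg (by omega), if_pos trivial, if_neg (by omega)] at c1
  rw [if_neg (by omega), if_neg (by omega), if_pos trivial] at c2
  have t0 : (PP ^ (q + 1)).coeff 0 = 1 := t_zero _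
  have t2 : (PP ^ (q + 1)).coeff ((q + 1) * 2) = 1 :=
    (t_symm (n := q + 1) (j := 0) (by ring)).trans (t_zero _)
  have t1 : (PP ^ (q + 1)).coeff (q + 1) = trinomial (q + 1) := rfl
  rw [t0] at c0
  rw [t1] at c1
  rw [t2] at c2
  obtain ⟨a, ha⟩ := T_p hp h3 h2
  simp only [pow_zero, one_mul, add_zero, T0] at hw
  refine ⟨w + (m + 1) * a * trinomial m, ?_⟩
  linear_combination hw - (m + 1) * t m (m + 1) * (c0 + c2) + (m + 1) * trinomial m * (ha - c1)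

end

end Pool.Agent.P.MP_93ad88_nt
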