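import Pool.Agent.P.MP_93ad88_nt.Cong

namespace Pool.Agent.P.MP_93ad88_nt

open Polynomial Finset

/-- Lucas-type sequences mod `p` -/
def Luc (p : ℕ) (L : ℕ → ℤ) : Prop :=
  ∀ m j, j < p → (p : ℤ) ∣ L (p * m + j) - L j * trinomial m

/-- sequences of the form `A T(m) + p L(m)` mod `p^2` -/
def Good (p : ℕ) (u : ℕ → ℤ) : Prop :=
  ∃ (A : ℤ) (L : ℕ → ℤ), Luc p L ∧ ∀ m, (p : ℤ) ^ 2 ∣ u m - (A * trinomial m + p * L m)

lemma Luc.comb {p : ℕ} {L L' : ℕ → ℤ} (h : Luc p L) (h' : Luc p L') (a b : ℤ) :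
    Luc p (fun m => a * L m + b * L' m) := by
  intro m j hj
  obtain ⟨u, hu⟩ := h m j hj
  obtain ⟨v, hv⟩ := h' m j hj
  exact ⟨a * u + b * v, by simp only; linear_combination a * hu + b * hv⟩

lemma Good.comb {p : ℕ} {u v : ℕ → ℤ} (h : Good p u) (h' : Good p v) (a b : ℤ) :
    Good p (fun m => a * u m + b * v m) := by
  obtain ⟨A, L, hL, h⟩ := h
  obtain ⟨A', L', hL', h'⟩ := h'
  refine ⟨a * A + b * A', _, hL.comb hL' a b, fun m => ?_⟩
  obtain ⟨x, hx⟩ := h m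
  obtain ⟨y, hy⟩ := h' m
  exact ⟨a * x + b * y, by simp only; linear_combination a * hx + b * hy⟩

lemma Good.congr {p : ℕ} {u v : ℕ → ℤ} (h : Good p u) (h' : ∀ m, (p : ℤ) ^ 2 ∣ v m - u m) :
    Good p v := by
  obtain ⟨A, L, hL, h⟩ := h
  refine ⟨A, L, hL, fun m => ?_⟩
  obtain ⟨x, hx⟩ := h m
  obtain ⟨y, hy⟩ := h' m
  exact ⟨x + y, by linear_combination hx + hy⟩

section
variable {p : ℕ} (hp : p.Prime) (h3 : p % 3 ≠ 0) (h2 : p ≠ 2)

include hp h3 in
lemma K1 {k : ℕ} (hk : k < p) : ∃ a b : ℤ, ∀ m : ℕ, (p : ℤ) ^ 2 ∣ trinomial (p * (m + 1) + k)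
    - (trinomial k * trinomial (m + 1) + p * (m + 1) * (a * t m (m + 1) + b * trinomial m)) := by
  obtain ⟨q, rfl⟩ : ∃ q, p = q + 1 := ⟨p - 1, by have := hp.pos; omega⟩
  obtain ⟨G, -, h⟩ := K0 hp h3 hk
  exact ⟨_, _, h⟩

include hp h3 in
lemma lucas : Luc p trinomial := by
  intro m j hj
  rcases m with _ | m
  · simp [T0]
  obtain ⟨a, b, h⟩ := K1 hp h3 hj
  obtain ⟨w, hw⟩ := h m
  exact ⟨p * w + (m + 1) * (a * t m (m + 1) + b * trinomial m), by linear_combination hw⟩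

include hp h3 in
lemma luc_mul : Luc p (fun m => m * trinomial m) := by
  intro m j hj
  obtain ⟨u, hu⟩ := lucas hp h3 m j hj
  exact ⟨m * trinomial (p * m + j) + j * u, by simp only; push_cast; linear_combination j * hu⟩

include hp h3 in
lemma luc_succ : Luc p (fun m => (m + 1) * trinomial (m + 1)) := by
  intro m j hj
  by_cases h : j + 1 < p
  · obtain ⟨u, hu⟩ := lucas hp h3 m (j + 1) h
    refine ⟨m * trinomial (p * m + j + 1) + (j + 1) * u, ?_⟩
    simp only; push_cast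
    rw [← add_assoc] at hu
    linear_combination (j + 1) * hu
  · have e : (p : ℤ) = j + 1 := by exact_mod_cast (show p = j + 1 by omega)
    refine ⟨(m + 1) * trinomial (p * m + j + 1) - trinomial (j + 1) * trinomial m, ?_⟩
    simp only; push_cast
    linear_combination (trinomial (j + 1) * trinomial m - trinomial (p * m + j + 1)) * e

include hp h3 h2 in
lemma five_le : 5 ≤ p := by
  have := hp.two_le
  have h4 : p ≠ 4 := by rintro rfl; norm_num at hp
  omega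

include hp h3 h2 in
lemma nd2 : ¬ (p : ℤ) ∣ 2 :=
  not_dvd_small (k := 2) (by omega) (by have := five_le hp h3 h2; omega)

include hp h3 h2 in
lemma nd3 : ¬ (p : ℤ) ∣ 3 :=
  not_dvd_small (k := 3) (by omega) (by have := five_le hp h3 h2; omega)

include hp h3 h2 in
lemma good_T {k : ℕ} (hk : k < p) : Good p (fun m => trinomial (p * m + k)) := by
  have hP := prime_int hp
  have n2 := nd2 hp h3 h2
  have n3 := nd3 hp h3 h2
  have l1 := lucas hp h3
  have l2 := luc_mul hp h3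
  have l3 := luc_succ hp h3
  obtain ⟨a, b, h⟩ := K1 hp h3 hk
  let L : ℕ → ℤ := fun m => m * (a * t (m - 1) m + b * trinomial (m - 1))
  have hL : ∀ m, 6 * L m = 1 * ((5 * a - 4 * b) * (m * trinomial m) + (a - 2 * b) * trinomial m)
      + (2 * b - a) * ((m + 1) * trinomial (m + 1)) := by
    intro m
    rcases m with _ | m
    · simp [L, T0, T1]
    · have e1 := T_succ m
      have e2 := T_rec m
      simp only [L, Nat.add_sub_cancel, add_assoc, show (1 + 1 : ℕ) = 2 from rfl]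
      push_cast
      linear_combination (-3 * a * (m + 1)) * e1 - (2 * b - a) * e2
  refine ⟨trinomial k, L, ?_, fun m => ?_⟩
  · intro m j hj
    have h6 := ((l2.comb l1 (5 * a - 4 * b) (a - 2 * b)).comb l3 1 (2 * b - a)) m j hj
    simp only [← hL] at h6
    have e : 6 * L (p * m + j) - 6 * L j * trinomial m
        = 2 * (3 * (L (p * m + j) - L j * trinomial m)) := by ring
    rw [e] at h6
    exact (hP.dvd_or_dvd ((hP.dvd_or_dvd h6).resolve_left n2)).resolve_left n3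
  · rcases m with _ | m
    · simp [L, T0]
    · obtain ⟨w, hw⟩ := h m
      exact ⟨w, by simp only [L, Nat.add_sub_cancel]; push_cast at *; linear_combination hw⟩

include hp h3 in
lemma Good.red (hT : ∀ j, ¬ (p : ℤ) ∣ trinomial j) {u : ℕ → ℤ} (h : Good p u) {m : ℕ}
    (hm : (p : ℤ) ^ 2 ∣ u m) : (p : ℤ) ^ 2 ∣ u (m % p) := by
  have hP := prime_int hp
  have hp0 : (p : ℤ) ≠ 0 := hP.ne_zero
  obtain ⟨A, L, hL, h⟩ := h
  obtain ⟨x, hx⟩ := h m
  obtain ⟨y, hy⟩ := hm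
  have h1 : (p : ℤ) ∣ A * trinomial m := ⟨p * (y - x) - L m, by linear_combination hy - hx⟩
  obtain ⟨A', rfl⟩ := (hP.dvd_or_dvd h1).resolve_right (hT m)
  have h2 : A' * trinomial m + L m = p * (y - x) :=
    mul_left_cancel₀ hp0 (by linear_combination hy - hx)
  obtain ⟨z, hz⟩ := ((lucas hp h3).comb hL A' 1) (m / p) (m % p) (Nat.mod_lt _ hp.pos)
  simp only [Nat.div_add_mod] at hz
  have h4 : (p : ℤ) ∣ (A' * trinomial (m % p) + L (m % p)) * trinomial (m / p) :=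
    ⟨y - x - z, by linear_combination h2 - hz⟩
  obtain ⟨v, hv⟩ := (hP.dvd_or_dvd h4).resolve_right (hT _)
  obtain ⟨w, hw⟩ := h (m % p)
  exact ⟨w + v, by linear_combination hw + p * hv⟩

include hp h3 in
lemma exists_small {n : ℕ} (h : (p : ℤ) ∣ trinomial n) : ∃ j < p, (p : ℤ) ∣ trinomial j := by
  induction n using Nat.strong_induction_on with
  | _ n ih =>
    by_cases hn : n < p
    · exact ⟨n, hn, h⟩
    have h1 := lucas hp h3 (n / p) (n % p) (Nat.mod_lt _ hp.pos)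
    rw [Nat.div_add_mod] at h1
    have h2 : (p : ℤ) ∣ trinomial (n % p) * trinomial (n / p) := by
      simpa using dvd_sub h h1
    rcases (prime_int hp).dvd_or_dvd h2 with h4 | h4
    · exact ⟨_, Nat.mod_lt _ hp.pos, h4⟩
    · exact ih _ (Nat.div_lt_self (by have := hp.pos; omega) hp.one_lt) h4

include hp h3 in
lemma p_dvd_Q : (p : ℤ) ∣ 3 ^ (p - 1) - 1 := by
  have h := Int.ModEq.pow_card_sub_one_eq_one hp (n := 3) (by
    rw [Int.isCoprime_iff_gcd_eq_one]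
    have : Nat.Coprime 3 p := (Nat.coprime_primes Nat.prime_three hp).2 (by rintro rfl; simp at h3)
    exact_mod_cast this)
  exact h.symm.dvd

include h3 in
lemma chi_sq : chi p ^ 2 = 1 := by
  unfold chi
  rw [if_neg h3]
  split_ifs <;> norm_num

include hp h3 h2 in
lemma iterS1 (i N : ℕ) : (p : ℤ) ^ 2 ∣ trinomial (p ^ i * N) - trinomial N := by
  induction i with
  | zero => simp
  | succ i ih =>
    obtain ⟨q, rfl⟩ : ∃ q, p = q + 1 := ⟨p - 1, by have := hp.pos; omega⟩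
    have := S1 hp h3 h2 ((q + 1) ^ i * N)
    rw [pow_succ' (q + 1), mul_assoc]
    simpa using dvd_add this ih

include hp h3 h2 in
lemma iterS2 (i m : ℕ) : ∀ n, n + 1 = p ^ (i + 1) * (m + 1) → (p : ℤ) ^ 2 ∣ trinomial n
    - chi p ^ (i + 1) * (1 + (m + 1) * (3 ^ (p - 1) - 1)) * trinomial m := by
  obtain ⟨Q, hQ⟩ := p_dvd_Q hp h3
  obtain ⟨q, rfl⟩ : ∃ q, p = q + 1 := ⟨p - 1, by have := hp.pos; omega⟩
  simp only [Nat.add_sub_cancel] at *
  induction i with
  | zero =>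
    intro n hn
    obtain rfl : n = (q + 1) * m + q := by
      simp only [zero_add, pow_one] at hn; nlinarith
    simpa using S2 hp h3 h2 m
  | succ i ih =>
    intro n hn
    obtain ⟨n', hn'⟩ : ∃ n', n' + 1 = (q + 1) ^ (i + 1) * (m + 1) :=
      ⟨(q + 1) ^ (i + 1) * (m + 1) - 1, Nat.sub_add_cancel (Nat.succ_le_of_lt (by positivity))⟩
    obtain rfl : n = (q + 1) * n' + q := by
      rw [pow_succ' (q + 1) (i + 1), mul_assoc, ← hn'] at hn; nlinarith
    obtain ⟨a, ha⟩ := ih n' hn'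
    obtain ⟨b, hb⟩ := S2 hp h3 h2 n'
    have e : (n' : ℤ) + 1 = ((q + 1 : ℕ) : ℤ) * (((q + 1 : ℕ) : ℤ) ^ i * (m + 1)) := by
      rw [← mul_assoc, ← pow_succ']; exact_mod_cast hn'
    refine ⟨b + chi (q + 1) * a
      + chi (q + 1) * (((q + 1 : ℕ) : ℤ) ^ i * (m + 1)) * Q * trinomial n', ?_⟩
    rw [hQ] at *
    rw [e] at hb
    linear_combination hb + chi (q + 1) * ha

include hp h3 h2 in
lemma lemA {i m n : ℕ} (hn : n + 2 = p ^ (i + 1) * (m + 1)) :
    (p : ℤ) ^ 2 ∣ motzkin n ↔ (p : ℤ) ^ 2 ∣ trinomial (m + 1)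
      - chi p ^ (i + 1) * (1 + (m + 1) * (3 ^ (p - 1) - 1)) * trinomial m := by
  have hP := prime_int hp
  obtain ⟨a, ha⟩ := iterS1 hp h3 h2 (i + 1) (m + 1)
  obtain ⟨b, hb⟩ := iterS2 hp h3 h2 i m (n + 1) hn
  rw [← hn] at ha
  have hM := M_A n
  constructor
  · rintro ⟨c, hc⟩
    exact ⟨2 * (n + 1) * c - a + b, by linear_combination 2 * (n + 1) * hc - hM - ha + hb⟩
  · rintro ⟨c, hc⟩
    have e : (n : ℤ) + 2 = p * (p ^ i * (m + 1)) := by
      rw [← mul_assoc, ← pow_succ']; exact_mod_cast hn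
    have hu : ¬ (p : ℤ) ∣ n + 1 := by
      intro h
      have : (p : ℤ) ∣ 1 := by simpa using dvd_sub (Dvd.intro _ e.symm) h
      exact hP.not_dvd_one this
    refine hP.pow_dvd_of_dvd_mul_left 2 hu (hP.pow_dvd_of_dvd_mul_left 2 (nd2 hp h3 h2) ?_)
    exact ⟨c + a - b, by linear_combination hM + hc + ha - hb⟩

include hp h3 h2 in
lemma lemB {i m n : ℕ} (hn : n + 1 = p ^ (i + 1) * (m + 1)) :
    (p : ℤ) ^ 2 ∣ motzkin n ↔ (p : ℤ) ^ 2 ∣ trinomial (m + 1)
      + 3 * chi p ^ (i + 1) * (1 + (m + 1) * (3 ^ (p - 1) - 1)) * trinomial m := by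
  have hP := prime_int hp
  obtain ⟨a, ha⟩ := iterS1 hp h3 h2 (i + 1) (m + 1)
  obtain ⟨b, hb⟩ := iterS2 hp h3 h2 i m n hn
  rw [← hn] at ha
  have hM := M_B n
  constructor
  · rintro ⟨c, hc⟩
    exact ⟨2 * (n + 2) * c - a - 3 * b, by linear_combination 2 * (n + 2) * hc - hM - ha - 3 * hb⟩
  · rintro ⟨c, hc⟩
    have e : (n : ℤ) + 1 = p * (p ^ i * (m + 1)) := by
      rw [← mul_assoc, ← pow_succ']; exact_mod_cast hn
    have hu : ¬ (p : ℤ) ∣ n + 2 := by
      intro h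
      have : (p : ℤ) ∣ 1 := by simpa using dvd_sub h (Dvd.intro _ e.symm)
      exact hP.not_dvd_one this
    refine hP.pow_dvd_of_dvd_mul_left 2 hu (hP.pow_dvd_of_dvd_mul_left 2 (nd2 hp h3 h2) ?_)
    exact ⟨c + a + 3 * b, by linear_combination hM + hc + ha + 3 * hb⟩

include hp h3 h2 in
/-- if `p` divides a central trinomial coefficient, `p^2` divides a Motzkin number of index
below `p^4` -/
lemma of_dvd_T {n : ℕ} (h : (p : ℤ) ∣ trinomial n) : ∃ n < p ^ 4, (p : ℤ) ^ 2 ∣ motzkin n := by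
  have hP := prime_int hp
  have h5 := five_le hp h3 h2
  have n2 := nd2 hp h3 h2
  obtain ⟨j, hj, hjd⟩ := exists_small hp h3 h
  rcases j with _ | j
  · rw [T0] at hjd; exact absurd hjd hP.not_dvd_one
  have l1 := lucas hp h3
  have a1 : (p : ℤ) ∣ trinomial (p * (j + 1)) := by
    have := l1 (j + 1) 0 (by omega)
    rw [T0, one_mul, add_zero] at this
    simpa using dvd_add this hjd
  have a2 : (p : ℤ) ∣ trinomial (p * (p * (j + 1)) + j) := by
    have := l1 (p * (j + 1)) j (by omega)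
    simpa using dvd_add this (a1.mul_left (trinomial j))
  obtain ⟨q, rfl⟩ : ∃ q, p = q + 1 := ⟨p - 1, by omega⟩
  have a3 : ((q + 1 : ℕ) : ℤ) ^ 2 ∣ trinomial ((q + 1) * ((q + 1) * (j + 1)) + j + 1) := by
    obtain ⟨a, b, hG⟩ := K1 hp h3 hj
    obtain ⟨w, hw⟩ := hG ((q + 1) * j + q)
    rw [show (q + 1) * j + q + 1 = (q + 1) * (j + 1) by ring] at hw
    obtain ⟨x, hx⟩ := a1
    obtain ⟨y, hy⟩ := hjd
    rw [hx, hy] at hw
    rw [add_assoc]
    refine ⟨w + y * x + (j + 1) * (a * t ((q + 1) * j + q) ((q + 1) * (j + 1))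
      + b * trinomial ((q + 1) * j + q)), ?_⟩
    push_cast at hw ⊢
    linear_combination hw
  set m := (q + 1) * ((q + 1) * (j + 1)) + j with hm
  have a4 : ((q + 1 : ℕ) : ℤ) ∣ t m (m + 1) := by
    refine (hP.dvd_or_dvd ?_).resolve_left n2
    have e : 2 * t m (m + 1) = trinomial (m + 1) - trinomial m := by
      linear_combination -T_succ m
    rw [e]
    exact dvd_sub ((dvd_pow_self _ (by norm_num)).trans a3) a2
  have a5 : ∀ k < q + 1, ((q + 1 : ℕ) : ℤ) ^ 2 ∣ trinomial ((q + 1) * (m + 1) + k) := by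
    intro k hk
    obtain ⟨a, b, hG⟩ := K1 hp h3 hk
    obtain ⟨w, hw⟩ := hG m
    obtain ⟨x, hx⟩ := a2
    obtain ⟨y, hy⟩ := a3
    obtain ⟨z, hz⟩ := a4
    rw [hx, hy, hz] at hw
    refine ⟨w + trinomial k * y + (m + 1) * (a * z + b * x), ?_⟩
    linear_combination hw
  refine ⟨(q + 1) * (m + 1), ?_, ?_⟩
  · have : m + 1 < (q + 1) ^ 3 := by
      rw [hm]
      have : j + 1 ≤ q := by omega
      nlinarith [Nat.mul_le_mul_left ((q + 1) * (q + 1)) this]
    calc (q + 1) * (m + 1) < (q + 1) * (q + 1) ^ 3 := Nat.mul_lt_mul_of_pos_left this (by omega)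
      _ = (q + 1) ^ 4 := by ring
  · refine hP.pow_dvd_of_dvd_mul_left 2 n2 ?_
    rw [M_three]
    exact dvd_sub (dvd_add ((a5 0 (by omega)).mul_left _) ((a5 1 (by omega)).mul_left _))
      (a5 2 (by omega))

end

end Pool.Agent.P.MP_93ad88_nt
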