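import Mathlib

namespace Pool.Agent.P.MP_93ad88_nt

open Polynomial

/-- The Motzkin number `M(n) = ∑_{k ≤ n/2} C(n,2k) C_k`. -/
def motzkin (n : ℕ) : ℕ := ∑ k ∈ Finset.range (n / 2 + 1), n.choose (2 * k) * catalan k

/-- The central trinomial coefficient: the coefficient of `x^n` in `(1 + x + x^2)^n`. -/
noncomputable def trinomial (n : ℕ) : ℤ := ((1 + X + X ^ 2 : ℤ[X]) ^ n).coeff n

/-- `p` is Motzkin-square-free: `p^2` divides no Motzkin number. -/
def MSF (p : ℕ) : Prop := ∀ n : ℕ, ¬ p ^ 2 ∣ motzkin n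

end Pool.Agent.P.MP_93ad88_nt
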