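import Pool.Agent.P.MP_93ad88_nt.Tri

namespace Pool.Agent.P.MP_93ad88_nt

open Polynomial Finset

/-- coefficient extraction against an expanded polynomial -/
lemma coeff_mul_expand {p r : ℕ} (hr : r < p) (A B : ℤ[X]) (n : ℕ) :
    (A * expand ℤ p B).coeff (p * n + r)
      = ∑ x ∈ antidiagonal n, A.coeff (p * x.1 + r) * B.coeff x.2 := by
  induction B using Polynomial.induction_on' with
  | add f g hf hg => simp only [map_add, mul_add, coeff_add, hf, hg, sum_add_distrib]
  | monomial d b =>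
    rw [expand_monomial, ← C_mul_X_pow_eq_monomial, ← mul_assoc, coeff_mul_X_pow', coeff_mul_C]
    simp only [coeff_monomial]
    by_cases hd : d ≤ n
    · obtain ⟨e, rfl⟩ := Nat.exists_eq_add_of_le hd
      rw [if_pos (by nlinarith), sum_eq_single (e, d)]
      · simp only [if_true]
        congr 2
        rw [mul_add, mul_comm d p]; omega
      · rintro ⟨i, j⟩ hij hne
        simp only [HasAntidiagonal.mem_antidiagonal] at hij
        rw [if_neg, mul_zero]
        intro h
        apply hne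
        simp only at h
        subst h
        congr 1; omega
      · intro h; exact absurd (by simp [add_comm]) h
    · rw [if_neg (by nlinarith)]
      symm
      refine sum_eq_zero ?_
      rintro ⟨i, j⟩ hij
      simp only [HasAntidiagonal.mem_antidiagonal] at hij
      rw [if_neg (by simp only; omega), mul_zero]

lemma coeff_mul_expand3 {p r : ℕ} (hr : r < p) (A B : ℤ[X]) (n : ℕ)
    (hA : A.natDegree < p * 3 + r) :
    (A * expand ℤ p B).coeff (p * n + r)
      = A.coeff r * B.coeff n + A.coeff (p + r) * (B * X).coeff n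
        + A.coeff (p * 2 + r) * (B * X ^ 2).coeff n := by
  have h : A.coeff r * B.coeff n + A.coeff (p + r) * (B * X).coeff n
        + A.coeff (p * 2 + r) * (B * X ^ 2).coeff n
      = ((C (A.coeff r) + C (A.coeff (p + r)) * X + C (A.coeff (p * 2 + r)) * X ^ 2) * B).coeff n := by
    rw [add_mul, add_mul, coeff_add, coeff_add, coeff_C_mul, mul_assoc, mul_assoc, coeff_C_mul,
      coeff_C_mul, mul_comm X B, mul_comm (X ^ 2) B]
  rw [h, coeff_mul_expand hr, coeff_mul]
  refine sum_congr rfl ?_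
  rintro ⟨i, j⟩ _
  congr 1
  rcases i with _ | _ | _ | i
  · simp [-eq_intCast]
  · simp [-eq_intCast, coeff_X, coeff_C]
  · simp [-eq_intCast, coeff_X, coeff_C, coeff_X_pow]
  · rw [coeff_eq_zero_of_natDegree_lt (by nlinarith)]
    simp [-eq_intCast, coeff_X, coeff_C, coeff_X_pow]

lemma coeff_mul_expand1 {p r : ℕ} (hr : r < p) (A B : ℤ[X]) (n : ℕ)
    (hA : A.natDegree < p + r) :
    (A * expand ℤ p B).coeff (p * n + r) = A.coeff r * B.coeff n := by
  rw [coeff_mul_expand3 hr A B n (by omega), coeff_eq_zero_of_natDegree_lt hA,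
    coeff_eq_zero_of_natDegree_lt (p := A) (n := p * 2 + r) (by omega)]
  ring

/-- the character mod 3 -/
def chi (k : ℕ) : ℤ := if k % 3 = 0 then 0 else if k % 3 = 1 then 1 else -1

lemma chi_three (k : ℕ) : chi (k + 2) + chi (k + 1) + chi k = 0 := by
  unfold chi
  have : k % 3 = 0 ∨ k % 3 = 1 ∨ k % 3 = 2 := by omega
  rcases this with h | h | h
  · rw [if_neg (by omega), if_neg (by omega), if_neg (by omega), if_pos (by omega), if_pos h]; rfl
  · rw [if_pos (by omega), if_neg (by omega), if_neg (by omega), if_neg (by omega), if_pos h]; rfl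
  · rw [if_neg (by omega), if_pos (by omega), if_pos (by omega), if_neg (by omega),
      if_neg (by omega)]; rfl

/-- division by `1 + x + x^2` -/
lemma coeff_div (Y : ℤ[X]) (n : ℕ) :
    Y.coeff n = ∑ s ∈ range (n + 1), chi (n + 1 - s) * (Y * PP).coeff s := by
  have key : ∀ n, (Y.coeff n = ∑ s ∈ range (n + 1), chi (n + 1 - s) * (Y * PP).coeff s) ∧
      (Y.coeff (n + 1) = ∑ s ∈ range (n + 2), chi (n + 2 - s) * (Y * PP).coeff s) := by
    intro n
    induction n with
    | zero =>
      constructor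
      · simp [chi, PP]
      · simp [sum_range_succ, coeff_mul_PP_one, chi, show PP.coeff 0 = 1 by simp [PP]]
    | succ n ih =>
      refine ⟨ih.2, ?_⟩
      obtain ⟨h0, h1⟩ := ih
      have h2 := coeff_mul_PP Y n
      rw [sum_range_succ] at h1
      rw [sum_range_succ, sum_range_succ]
      have h3 : ∑ s ∈ range (n + 1), chi (n + 1 + 2 - s) * (Y * PP).coeff s
          + ∑ s ∈ range (n + 1), chi (n + 2 - s) * (Y * PP).coeff s
          + ∑ s ∈ range (n + 1), chi (n + 1 - s) * (Y * PP).coeff s = 0 := by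
        rw [← sum_add_distrib, ← sum_add_distrib]
        refine sum_eq_zero fun s hs => ?_
        have hs' : s < n + 1 := mem_range.1 hs
        have := chi_three (n + 1 - s)
        rw [show n + 1 - s + 2 = n + 1 + 2 - s by omega, show n + 1 - s + 1 = n + 2 - s by omega]
          at this
        linear_combination ((Y * PP).coeff s) * this
      rw [show n + 2 - (n + 1) = 1 by omega] at h1
      rw [show n + 1 + 2 - (n + 1) = 2 by omega, show n + 1 + 2 - (n + 2) = 1 by omega]
      have c1 : chi 1 = 1 := rfl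
      have c2 : chi 2 = -1 := rfl
      rw [c1] at h1
      rw [c1, c2, show n + 1 + 1 = n + 2 from rfl]
      linear_combination -h2 - h0 - h1 - h3
  exact (key n).1

lemma PP_dvd_pow (k : ℕ) : PP ∣ X ^ (3 * k) - 1 := by
  have h1 : PP ∣ X ^ 3 - 1 := ⟨X - 1, by unfold PP; ring⟩
  have h2 := sub_dvd_pow_sub_pow (X ^ 3 : ℤ[X]) 1 k
  rw [one_pow, ← pow_mul] at h2
  exact h1.trans h2

lemma expand_PP (p : ℕ) : expand ℤ p PP = 1 + X ^ p + X ^ (p * 2) := by
  simp [PP, pow_mul]

lemma PP_dvd_expand {p : ℕ} (h : p % 3 ≠ 0) : PP ∣ expand ℤ p PP := by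
  rw [expand_PP]
  have : p % 3 = 1 ∨ p % 3 = 2 := by omega
  rcases this with h | h
  · obtain ⟨k, rfl⟩ : ∃ k, p = 3 * k + 1 := ⟨p / 3, by omega⟩
    have e : (1 + X ^ (3 * k + 1) + X ^ ((3 * k + 1) * 2) : ℤ[X])
        = PP + X * (X ^ (3 * k) - 1) + X ^ 2 * (X ^ (3 * (2 * k)) - 1) := by
      unfold PP; ring
    rw [e]
    exact ((dvd_refl _).add ((PP_dvd_pow _).mul_left _)).add ((PP_dvd_pow _).mul_left _)
  · obtain ⟨k, rfl⟩ : ∃ k, p = 3 * k + 2 := ⟨p / 3, by omega⟩
    have e : (1 + X ^ (3 * k + 2) + X ^ ((3 * k + 2) * 2) : ℤ[X])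
        = PP + X ^ 2 * (X ^ (3 * k) - 1) + X * (X ^ (3 * (2 * k + 1)) - 1) := by
      unfold PP; ring
    rw [e]
    exact ((dvd_refl _).add ((PP_dvd_pow _).mul_left _)).add ((PP_dvd_pow _).mul_left _)

/-- Frobenius data: `E = P * D`, `P^(p-1) = D + p H`. -/
lemma exists_DH {q : ℕ} (hp : (q + 1).Prime) (h3 : (q + 1) % 3 ≠ 0) :
    ∃ D H : ℤ[X], expand ℤ (q + 1) PP = D * PP ∧ PP ^ q = D + C ((q + 1 : ℕ) : ℤ) * H ∧
      D.natDegree ≤ 2 * q ∧ H.natDegree ≤ 2 * q := by
  have := Fact.mk hp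
  obtain ⟨D, hD⟩ := PP_dvd_expand h3
  have hDdeg : D.natDegree ≤ 2 * q := by
    have h1 := congrArg natDegree hD
    have hD0 : D ≠ 0 := by
      rintro rfl
      rw [mul_zero] at hD
      exact ((expand_ne_zero (by omega)).2 PP_ne) hD
    rw [natDegree_expand, natDegree_mul PP_ne hD0, PP_natDegree] at h1
    omega
  have hdvd : C ((q + 1 : ℕ) : ℤ) ∣ PP ^ q - D := by
    rw [C_dvd_iff_dvd_coeff]
    intro i
    rw [← ZMod.intCast_zmod_eq_zero_iff_dvd]
    have h1 : (PP ^ q - D).map (Int.castRingHom (ZMod (q + 1))) = 0 := by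
      have h2 := congrArg (Polynomial.map (Int.castRingHom (ZMod (q + 1)))) hD
      rw [map_expand, ZMod.expand_card, Polynomial.map_mul, pow_succ, mul_comm] at h2
      have h4 : (PP.map (Int.castRingHom (ZMod (q + 1)))) ≠ 0 := (PP_monic.map _).ne_zero
      have h5 := mul_left_cancel₀ h4 h2
      rw [Polynomial.map_sub, Polynomial.map_pow, h5, sub_self]
    have h2 := congrArg (fun f => coeff f i) h1
    simp only [coeff_map, coeff_zero] at h2
    exact h2
  obtain ⟨H, hH⟩ := hdvd
  refine ⟨D, H, by rw [hD, mul_comm], by linear_combination hH, hDdeg, ?_⟩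
  have h1 : (C ((q + 1 : ℕ) : ℤ) * H).natDegree ≤ 2 * q := by
    rw [← hH]
    exact (natDegree_sub_le _ _).trans (max_le (PP_pow_natDegree q).le hDdeg)
  rwa [natDegree_C_mul (by exact_mod_cast hp.ne_zero)] at h1

end Pool.Agent.P.MP_93ad88_nt
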