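import Pool.Agent.P.MP_93ad88_nt.Defs

namespace Pool.Agent.P.MP_93ad88_nt

open Polynomial Finset

noncomputable def PP : ℤ[X] := 1 + X + X ^ 2

noncomputable def t (n k : ℕ) : ℤ := (PP ^ n).coeff k

lemma tri_eq (n : ℕ) : trinomial n = t n n := rfl

lemma PP_natDegree : PP.natDegree = 2 := by
  unfold PP; compute_degree!

lemma PP_monic : PP.Monic := by
  unfold PP; monicity!

lemma PP_ne : PP ≠ 0 := PP_monic.ne_zero

lemma PP_pow_natDegree (n : ℕ) : (PP ^ n).natDegree = 2 * n := by
  rw [PP_monic.natDegree_pow, PP_natDegree]; ring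

lemma reflect_PP_pow (n : ℕ) : reflect (2 * n) (PP ^ n) = PP ^ n := by
  induction n with
  | zero => simp
  | succ n ih =>
    have h1 : reflect 2 PP = PP := by
      ext i
      rw [coeff_reflect]
      rcases i with _ | _ | _ | i
      · simp [PP, revAt_le, coeff_one, coeff_X]
      · simp [PP, revAt_le, coeff_one, coeff_X]
      · simp [PP, revAt_le, coeff_one, coeff_X]
      · rw [revAt_eq_self_of_lt (by omega)]
    rw [pow_succ, show 2 * (n + 1) = 2 * n + 2 by ring,
      reflect_mul _ _ (PP_pow_natDegree n).le PP_natDegree.le, ih, h1]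

lemma t_symm {n i j : ℕ} (h : i + j = 2 * n) : t n i = t n j := by
  unfold t
  conv_lhs => rw [← reflect_PP_pow n]
  rw [coeff_reflect, revAt_le (by omega)]
  congr 1; omega

lemma t_big {n k : ℕ} (h : 2 * n < k) : t n k = 0 :=
  coeff_eq_zero_of_natDegree_lt (by rw [PP_pow_natDegree]; exact h)

lemma coeff_mul_PP (Y : ℤ[X]) (k : ℕ) :
    (Y * PP).coeff (k + 2) = Y.coeff (k + 2) + Y.coeff (k + 1) + Y.coeff k := by
  unfold PP
  rw [mul_add, mul_add, mul_one, coeff_add, coeff_add, coeff_mul_X_pow,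
    show k + 2 = (k + 1) + 1 from rfl, coeff_mul_X]

lemma coeff_mul_PP_one (Y : ℤ[X]) : (Y * PP).coeff 1 = Y.coeff 1 + Y.coeff 0 := by
  unfold PP
  rw [mul_add, mul_add, mul_one, coeff_add, coeff_add, coeff_mul_X_pow',
    show 1 = 0 + 1 from rfl, coeff_mul_X]
  simp

lemma coeff_mul_PP_zero (Y : ℤ[X]) : (Y * PP).coeff 0 = Y.coeff 0 := by
  simp [PP, mul_coeff_zero]

lemma t_succ (n k : ℕ) : t (n + 1) (k + 2) = t n (k + 2) + t n (k + 1) + t n k := by
  unfold t; rw [pow_succ, coeff_mul_PP]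

lemma t_zero (n : ℕ) : t n 0 = 1 := by
  induction n with
  | zero => simp [t]
  | succ n ih => unfold t at *; rw [pow_succ, coeff_mul_PP_zero, ih]

lemma t_one (n : ℕ) : t n 1 = n := by
  induction n with
  | zero => simp [t, coeff_one]
  | succ n ih =>
    have := t_zero n
    unfold t at *; rw [pow_succ, coeff_mul_PP_one, ih, this]; push_cast; ring

lemma T0 : trinomial 0 = 1 := t_zero 0
lemma T1 : trinomial 1 = 1 := by rw [tri_eq, t_one]; rfl

/-- `T(n+1) = T(n) + 2 t(n,n+1)`. -/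
lemma T_succ (n : ℕ) : trinomial (n + 1) = trinomial n + 2 * t n (n + 1) := by
  rcases n with _ | n
  · rw [T1, T0, t_big (by omega)]; rfl
  · rw [tri_eq, tri_eq, t_succ, t_symm (show n + (n + 2) = 2 * (n + 1) by ring)]; ring

lemma deriv_PP : derivative PP = 1 + 2 * X := by
  unfold PP; simp

/-- derivative identity -/
lemma t_deriv (n k : ℕ) :
    ((k : ℤ) + 2) * t (n + 1) (k + 2) = (n + 1) * (t n (k + 1) + 2 * t n k) := by
  have h := congrArg (fun f => coeff f (k + 1)) (derivative_pow_succ PP n)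
  simp only [coeff_derivative, deriv_PP] at h
  have h2 : C ((n : ℤ) + 1) * PP ^ n * (1 + 2 * X)
      = C ((n : ℤ) + 1) * (PP ^ n + C 2 * (PP ^ n * X)) := by
    simp only [map_ofNat]; ring
  rw [h2, coeff_C_mul, coeff_add, coeff_C_mul, coeff_mul_X] at h
  unfold t
  push_cast at h
  linear_combination h

lemma b_rec (n : ℕ) :
    ((n : ℤ) + 2) * t (n + 1) (n + 2) = (n + 1) * (2 * trinomial n + t n (n + 1)) := by
  have := t_deriv n n
  rw [tri_eq]; linear_combination this

/-- the three-term recurrence -/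
lemma T_rec (n : ℕ) : ((n : ℤ) + 2) * trinomial (n + 2)
    = (2 * n + 3) * trinomial (n + 1) + 3 * (n + 1) * trinomial n := by
  have h1 := T_succ n
  have h2 := T_succ (n + 1)
  have h3 := b_rec n
  simp only [add_assoc, show (1 + 1 : ℕ) = 2 from rfl] at h2
  linear_combination (n + 2) * h2 + 2 * h3 - (n + 1) * h1

lemma coeff_one_add_sq (i j : ℕ) :
    ((1 + X ^ 2 : ℤ[X]) ^ i).coeff j = if 2 ∣ j then (i.choose (j / 2) : ℤ) else 0 := by
  have : (1 + X ^ 2 : ℤ[X]) ^ i = expand ℤ 2 ((1 + X) ^ i) := by simp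
  rw [this, coeff_expand (by norm_num), coeff_one_add_X_pow]

lemma t_formula (n d : ℕ) : t n (n + 2 * d)
    = ∑ k ∈ range (n / 2 + 1), (n.choose (2 * k) : ℤ) * ((2 * k).choose (k + d) : ℤ) := by
  unfold t
  have h : PP = (1 + X ^ 2) + X := by unfold PP; ring
  rw [h, add_pow, finsetSum_coeff]
  have h2 : ∀ m ∈ range (n + 1), (((1 + X ^ 2 : ℤ[X]) ^ m * X ^ (n - m) * (n.choose m : ℤ[X])).coeff
      (n + 2 * d)) = if 2 ∣ m then (n.choose m : ℤ) * (m.choose (m / 2 + d) : ℤ) else 0 := by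
    intro m hm
    have hm' : m ≤ n := by simpa [Nat.lt_succ_iff] using hm
    rw [coeff_mul_natCast, show n + 2 * d = (m + 2 * d) + (n - m) by omega, coeff_mul_X_pow,
      coeff_one_add_sq]
    by_cases h2 : 2 ∣ m
    · rw [if_pos h2, if_pos (by omega), show (m + 2 * d) / 2 = m / 2 + d by omega]; ring
    · rw [if_neg h2, if_neg (by omega)]; ring
  rw [sum_congr rfl h2, ← sum_filter]
  symm
  apply sum_bij (fun k _ => 2 * k)
  · intro k hk; simp at hk ⊢; omega
  · intro a _ b _ h; omega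
  · intro b hb
    simp at hb
    exact ⟨b / 2, by simp; omega, by omega⟩
  · intro k _; rw [show 2 * k / 2 = k by omega]

lemma catalan_sub (k : ℕ) :
    (catalan k : ℤ) = ((2 * k).choose k : ℤ) - ((2 * k).choose (k + 1) : ℤ) := by
  have h1 := succ_mul_catalan_eq_centralBinom k
  have h2 := Nat.choose_succ_right_eq (2 * k) k
  rw [show 2 * k - k = k by omega] at h2
  rw [Nat.centralBinom] at h1
  have h1' : ((k : ℤ) + 1) * catalan k = ((2 * k).choose k : ℤ) := by exact_mod_cast h1
  have h2' : ((2 * k).choose (k + 1) : ℤ) * (k + 1) = ((2 * k).choose k : ℤ) * k := by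
    exact_mod_cast h2
  have : ((k : ℤ) + 1) ≠ 0 := by positivity
  apply mul_left_cancel₀ this
  linear_combination h1' + h2'

lemma M_eq (n : ℕ) : (motzkin n : ℤ) = trinomial n - t n (n + 2) := by
  have h0 := t_formula n 0
  have h1 := t_formula n 1
  simp only [mul_zero, add_zero, mul_one] at h0 h1
  rw [tri_eq, h0, h1, motzkin, ← sum_sub_distrib]
  push_cast
  refine sum_congr rfl fun k _ => ?_
  rw [catalan_sub]; ring

lemma M_three (n : ℕ) : 2 * (motzkin n : ℤ)
    = 3 * trinomial n + 2 * trinomial (n + 1) - trinomial (n + 2) := by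
  have h1 := T_succ n
  have h2 := T_succ (n + 1)
  have h3 := t_succ n n
  have h4 := M_eq n
  simp only [add_assoc, show (1 + 1 : ℕ) = 2 from rfl] at h2
  rw [← tri_eq] at h3
  linear_combination 2 * h4 + h2 + 2 * h3 - h1

lemma M_A (n : ℕ) : 2 * ((n : ℤ) + 1) * motzkin n = trinomial (n + 2) - trinomial (n + 1) := by
  linear_combination (n + 1) * M_three n - T_rec n

lemma M_B (n : ℕ) : 2 * ((n : ℤ) + 2) * motzkin n = 3 * trinomial n + trinomial (n + 1) := by
  linear_combination (n + 2) * M_three n - T_rec n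

end Pool.Agent.P.MP_93ad88_nt
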