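import Pool.Agent.P.MP_93ad88_nt.Crit

namespace Pool.Agent.P.MP_93ad88_nt

open Polynomial Finset

lemma dvd_M_iff (p n : ℕ) : p ^ 2 ∣ motzkin n ↔ (p : ℤ) ^ 2 ∣ motzkin n := by
  exact_mod_cast Int.natCast_dvd_natCast.symm

section
variable {p : ℕ} (hp : p.Prime) (h3 : p % 3 ≠ 0) (h2 : p ≠ 2)

include h3 in
lemma chi_pow (i : ℕ) : chi p ^ i = 1 ∨ chi p ^ i = chi p := by
  induction i with
  | zero => simp
  | succ i ih =>
    rcases ih with h | h
    · right; rw [pow_succ, h, one_mul]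
    · left; rw [pow_succ, h, ← sq, chi_sq h3]

include hp h3 h2 in
lemma red_w (hT : ∀ j, ¬ (p : ℤ) ∣ trinomial j) (c : ℤ) {m j : ℕ} (hj : j + 1 < p)
    (h : (p : ℤ) ^ 2 ∣ trinomial (p * m + j + 1)
      + c * (1 + (((p * m + j : ℕ) : ℤ) + 1) * (3 ^ (p - 1) - 1)) * trinomial (p * m + j)) :
    (p : ℤ) ^ 2 ∣ trinomial (p * (m % p) + j + 1)
      + c * (1 + (((p * (m % p) + j : ℕ) : ℤ) + 1) * (3 ^ (p - 1) - 1))
        * trinomial (p * (m % p) + j) := by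
  obtain ⟨Q, hQ⟩ := p_dvd_Q hp h3
  have g : Good p (fun m => trinomial (p * m + j + 1)
      + c * (1 + (((p * m + j : ℕ) : ℤ) + 1) * (3 ^ (p - 1) - 1)) * trinomial (p * m + j)) := by
    refine ((good_T hp h3 h2 hj).comb (good_T hp h3 h2 (k := j) (by omega)) 1
      (c * (1 + (j + 1) * (3 ^ (p - 1) - 1)))).congr fun m => ?_
    refine ⟨c * m * Q * trinomial (p * m + j), ?_⟩
    rw [hQ, add_assoc]; push_cast; ring
  exact g.red hp h3 hT h

include hp in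
lemma split_pow {N : ℕ} (h0 : N ≠ 0) (hd : p ∣ N) :
    ∃ i m j, j + 1 < p ∧ N = p ^ (i + 1) * (p * m + j + 1) := by
  obtain ⟨e, N', hN', rfl⟩ := Nat.exists_eq_pow_mul_and_not_dvd h0 p hp.ne_one
  rcases e with _ | i
  · simp at hd; exact absurd hd hN'
  have h1 : N' % p ≠ 0 := fun h => hN' (Nat.dvd_of_mod_eq_zero h)
  have h2 := Nat.mod_lt N' hp.pos
  refine ⟨i, N' / p, N' % p - 1, by omega, ?_⟩
  congr 1
  have := Nat.div_add_mod N' p
  omega

include hp h3 h2 in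
/-- the reduction to small indices -/
lemma core (hT : ∀ j, ¬ (p : ℤ) ∣ trinomial j) {n : ℕ} (h : (p : ℤ) ^ 2 ∣ motzkin n) :
    (∃ m < p, ∃ k, k + 2 < p ∧ (p : ℤ) ^ 2 ∣ motzkin (p * m + k)) ∨
    ∃ m < p, ∃ j, j + 1 < p ∧ ∃ e : ℤ, (e = 1 ∨ e = chi p) ∧
      ((p : ℤ) ^ 2 ∣ trinomial (p * m + j + 1)
        - e * (1 + (((p * m + j : ℕ) : ℤ) + 1) * (3 ^ (p - 1) - 1)) * trinomial (p * m + j) ∨
      (p : ℤ) ^ 2 ∣ trinomial (p * m + j + 1)
        + 3 * e * (1 + (((p * m + j : ℕ) : ℤ) + 1) * (3 ^ (p - 1) - 1)) * trinomial (p * m + j)) := by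
  have hP := prime_int hp
  have hk := Nat.mod_lt n hp.pos
  have hn := Nat.div_add_mod n p
  by_cases h1 : n % p + 2 < p
  · left
    refine ⟨(n / p) % p, Nat.mod_lt _ hp.pos, n % p, h1, ?_⟩
    have g : Good p (fun m => 2 * (motzkin (p * m + n % p) : ℤ)) := by
      refine (((good_T hp h3 h2 hk).comb (good_T hp h3 h2 (k := n % p + 1) (by omega)) 3 2).comb
        (good_T hp h3 h2 h1) 1 (-1)).congr fun m => ?_
      rw [M_three]
      simp only [add_assoc]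
      ring_nf
      exact dvd_zero _
    have := g.red hp h3 hT (m := n / p) (by rw [hn]; exact h.mul_left _)
    exact hP.pow_dvd_of_dvd_mul_left 2 (nd2 hp h3 h2) this
  right
  by_cases h4 : n % p + 2 = p
  · obtain ⟨i, m, j, hj, e⟩ := split_pow hp (N := n + 2) (by omega)
      ⟨n / p + 1, by rw [mul_add]; omega⟩
    have h5 := (lemA hp h3 h2 e).1 h
    refine ⟨m % p, Nat.mod_lt _ hp.pos, j, hj, chi p ^ (i + 1), chi_pow h3 _, Or.inl ?_⟩
    have := red_w hp h3 h2 hT (-chi p ^ (i + 1)) (m := m) hj (by convert h5 using 1; ring)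
    convert this using 1; ring
  · obtain ⟨i, m, j, hj, e⟩ := split_pow hp (N := n + 1) (by omega)
      ⟨n / p + 1, by rw [mul_add]; omega⟩
    have h5 := (lemB hp h3 h2 e).1 h
    exact ⟨m % p, Nat.mod_lt _ hp.pos, j, hj, chi p ^ (i + 1), chi_pow h3 _,
      Or.inr (red_w hp h3 h2 hT (3 * chi p ^ (i + 1)) (m := m) hj h5)⟩

include hp h3 h2 in
lemma back_A {m : ℕ} (hm : m + 1 < p ^ 2) {e : ℤ} (he : e = 1 ∨ e = chi p)
    (h : (p : ℤ) ^ 2 ∣ trinomial (m + 1) - e * (1 + (m + 1) * (3 ^ (p - 1) - 1)) * trinomial m) :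
    ∃ n < p ^ 4, (p : ℤ) ^ 2 ∣ motzkin n := by
  have h5 := five_le hp h3 h2
  obtain ⟨i, hi, rfl⟩ : ∃ i ≤ 1, e = chi p ^ (i + 1) := by
    rcases he with rfl | rfl
    · exact ⟨1, le_rfl, (chi_sq h3).symm⟩
    · exact ⟨0, by omega, by simp⟩
  have h6 : p ≤ p ^ (i + 1) := Nat.le_self_pow (by omega) p
  have h7 : p ^ (i + 1) ≤ p ^ 2 := Nat.pow_le_pow_right hp.pos (by omega)
  obtain ⟨n, hn⟩ : ∃ n, n + 2 = p ^ (i + 1) * (m + 1) :=
    ⟨p ^ (i + 1) * (m + 1) - 2, Nat.sub_add_cancel (by nlinarith)⟩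
  refine ⟨n, ?_, (lemA hp h3 h2 hn).2 h⟩
  have : p ^ (i + 1) * (m + 1) ≤ p ^ 2 * p ^ 2 := Nat.mul_le_mul h7 hm.le
  rw [← pow_add, show 2 + 2 = 4 from rfl] at this
  omega

include hp h3 h2 in
lemma back_B {m : ℕ} (hm : m + 1 < p ^ 2) {e : ℤ} (he : e = 1 ∨ e = chi p)
    (h : (p : ℤ) ^ 2 ∣ trinomial (m + 1)
      + 3 * e * (1 + (m + 1) * (3 ^ (p - 1) - 1)) * trinomial m) :
    ∃ n < p ^ 4, (p : ℤ) ^ 2 ∣ motzkin n := by
  have h5 := five_le hp h3 h2
  obtain ⟨i, hi, rfl⟩ : ∃ i ≤ 1, e = chi p ^ (i + 1) := by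
    rcases he with rfl | rfl
    · exact ⟨1, le_rfl, (chi_sq h3).symm⟩
    · exact ⟨0, by omega, by simp⟩
  have h6 : p ≤ p ^ (i + 1) := Nat.le_self_pow (by omega) p
  have h7 : p ^ (i + 1) ≤ p ^ 2 := Nat.pow_le_pow_right hp.pos (by omega)
  obtain ⟨n, hn⟩ : ∃ n, n + 1 = p ^ (i + 1) * (m + 1) :=
    ⟨p ^ (i + 1) * (m + 1) - 1, Nat.sub_add_cancel (by nlinarith)⟩
  refine ⟨n, ?_, (lemB hp h3 h2 hn).2 h⟩
  have : p ^ (i + 1) * (m + 1) ≤ p ^ 2 * p ^ 2 := Nat.mul_le_mul h7 hm.le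
  rw [← pow_add, show 2 + 2 = 4 from rfl] at this
  omega

lemma idx_lt {m j : ℕ} (hm : m < p) (hj : j < p) : p * m + j < p ^ 2 := by nlinarith

include hp h3 h2 in
lemma finite_big {n : ℕ} (h : (p : ℤ) ^ 2 ∣ motzkin n) :
    ∃ n < p ^ 4, (p : ℤ) ^ 2 ∣ motzkin n := by
  by_cases hT : ∀ j, ¬ (p : ℤ) ∣ trinomial j
  · rcases core hp h3 h2 hT h with ⟨m, hm, k, hk, h⟩ | ⟨m, hm, j, hj, e, he, h | h⟩
    · exact ⟨_, lt_of_lt_of_le (idx_lt hm (by omega))
        (Nat.pow_le_pow_right hp.pos (by omega)), h⟩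
    · exact back_A hp h3 h2 (idx_lt (j := j + 1) hm hj) he h
    · exact back_B hp h3 h2 (idx_lt (j := j + 1) hm hj) he h
  · push Not at hT
    obtain ⟨j, hj⟩ := hT
    exact of_dvd_T hp h3 h2 hj

include hp h3 h2 in
lemma crit_sq : MSF p ↔ (∀ j < p, ¬ (p : ℤ) ∣ trinomial j) ∧ (∀ n < p ^ 2, ¬ p ^ 2 ∣ motzkin n) ∧
    ∀ m : ℕ, m + 1 < p ^ 2 → ∀ e : ℤ, (e = 1 ∨ (e = -1 ∧ p % 3 = 2)) →
      ¬ (p : ℤ) ^ 2 ∣ trinomial (m + 1) - e * (1 + (m + 1) * (3 ^ (p - 1) - 1)) * trinomial m ∧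
      ¬ (p : ℤ) ^ 2 ∣ trinomial (m + 1)
        + 3 * e * (1 + (m + 1) * (3 ^ (p - 1) - 1)) * trinomial m := by
  have hchi : ∀ e : ℤ, (e = 1 ∨ (e = -1 ∧ p % 3 = 2)) ↔ (e = 1 ∨ e = chi p) := by
    intro e
    unfold chi
    rw [if_neg h3]
    split_ifs with h
    · simp [h]
    · simp [show p % 3 = 2 by omega]
  constructor
  · intro h
    refine ⟨fun j _ hj => ?_, fun n _ => h n, fun m hm e he => ⟨fun hd => ?_, fun hd => ?_⟩⟩
    · obtain ⟨n, -, hn⟩ := of_dvd_T hp h3 h2 hj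
      exact h n ((dvd_M_iff _ _).2 hn)
    · obtain ⟨n, -, hn⟩ := back_A hp h3 h2 hm ((hchi e).1 he) hd
      exact h n ((dvd_M_iff _ _).2 hn)
    · obtain ⟨n, -, hn⟩ := back_B hp h3 h2 hm ((hchi e).1 he) hd
      exact h n ((dvd_M_iff _ _).2 hn)
  · rintro ⟨a, b, c⟩ n hn
    have hT : ∀ j, ¬ (p : ℤ) ∣ trinomial j := fun j hj => by
      obtain ⟨i, hi, hd⟩ := exists_small hp h3 hj
      exact a i hi hd
    rcases core hp h3 h2 hT ((dvd_M_iff _ _).1 hn) with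
      ⟨m, hm, k, hk, h⟩ | ⟨m, hm, j, hj, e, he, h | h⟩
    · exact b _ (idx_lt hm (by omega)) ((dvd_M_iff _ _).2 h)
    · exact (c _ (idx_lt (j := j + 1) hm hj) e ((hchi e).2 he)).1 h
    · exact (c _ (idx_lt (j := j + 1) hm hj) e ((hchi e).2 he)).2 h

include hp h3 h2 in
lemma wief : p ^ 2 ∣ motzkin (p ^ 2 - 2) ↔ (p : ℤ) ^ 2 ∣ 3 ^ (p - 1) - 1 := by
  have h5 := five_le hp h3 h2
  rw [dvd_M_iff, lemA hp h3 h2 (i := 1) (m := 0) (by
    rw [Nat.sub_add_cancel (by nlinarith)]; ring), chi_sq h3, zero_add, T1, T0, ← dvd_neg]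
  simp

end

lemma not_MSF_two : ¬ MSF 2 := fun h => h 3 (by
  simp [motzkin, Finset.sum_range_succ, Nat.choose])

lemma not_MSF_three : ¬ MSF 3 := fun h => h 4 (by
  simp [motzkin, Finset.sum_range_succ, Nat.choose, catalan_two])

lemma h3_of {p : ℕ} (hp : p.Prime) (h : p ≠ 3) : p % 3 ≠ 0 := fun h0 =>
  h ((Nat.prime_dvd_prime_iff_eq Nat.prime_three hp).1 (Nat.dvd_of_mod_eq_zero h0)).symm

lemma finite_crit {p : ℕ} (hp : p.Prime) : MSF p ↔ ∀ n < p ^ 4, ¬ p ^ 2 ∣ motzkin n := by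
  refine ⟨fun h n _ => h n, fun h n hn => ?_⟩
  by_cases h2 : p = 2
  · subst h2
    exact h 3 (by norm_num) (by simp [motzkin, Finset.sum_range_succ, Nat.choose])
  by_cases h3 : p = 3
  · subst h3
    exact h 4 (by norm_num) (by simp [motzkin, Finset.sum_range_succ, Nat.choose, catalan_two])
  obtain ⟨n', h1, h4⟩ := finite_big hp (h3_of hp h3) h2 ((dvd_M_iff _ _).1 hn)
  exact h n' h1 ((dvd_M_iff _ _).2 h4)

lemma necessary {p : ℕ} (hp : p.Prime) (h : MSF p) :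
    (∀ j, ¬ (p : ℤ) ∣ trinomial j) ∧ ¬ (p : ℤ) ^ 2 ∣ 3 ^ (p - 1) - 1 := by
  have h2 : p ≠ 2 := by rintro rfl; exact not_MSF_two h
  have h3 : p % 3 ≠ 0 := h3_of hp (by rintro rfl; exact not_MSF_three h)
  refine ⟨fun j hj => ?_, fun hd => h _ ((wief hp h3 h2).2 hd)⟩
  obtain ⟨n, -, hn⟩ := of_dvd_T hp h3 h2 hj
  exact h n ((dvd_M_iff _ _).2 hn)

section
variable {p : ℕ} (hp : p.Prime) (h1 : p % 3 = 1)

include h1 in
lemma chi_one : chi p = 1 := by simp [chi, h1]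

include hp h1 in
lemma w_forced (m : ℕ) : (p : ℤ) ^ 2 ∣ (trinomial (p * m + 1)
      - (1 + (((p * m : ℕ) : ℤ) + 1) * (3 ^ (p - 1) - 1)) * trinomial (p * m))
      + ((3 ^ (p - 1) - 1) * trinomial m + p * (m + 1) * (trinomial m - trinomial (m + 1))) := by
  have h3 : p % 3 ≠ 0 := by omega
  have h2 : p ≠ 2 := by omega
  obtain ⟨Q, hQ⟩ := p_dvd_Q hp h3
  rcases m with _ | m
  · simp [T0, T1]
  obtain ⟨a, ha⟩ := iterS1 hp h3 h2 1 (m + 1)
  obtain ⟨n, hn⟩ : ∃ n, n + 1 = p * (m + 1) :=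
    ⟨p * (m + 1) - 1, Nat.sub_add_cancel (Nat.succ_le_of_lt (by have := hp.pos; positivity))⟩
  obtain ⟨b, hb⟩ := iterS2 hp h3 h2 0 m n (by simpa using hn)
  have r1 := T_rec n
  have r2 := T_rec m
  rw [pow_one] at ha
  rw [chi_one h1] at hb
  have e : (n : ℤ) + 1 = p * (m + 1) := by exact_mod_cast hn
  have hu : ¬ (p : ℤ) ∣ n + 2 := by
    intro h
    have : (p : ℤ) ∣ 1 := by simpa using dvd_sub h (Dvd.intro _ e.symm)
    exact (prime_int hp).not_dvd_one this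
  refine (prime_int hp).pow_dvd_of_dvd_mul_left 2 hu ?_
  rw [← hn] at ha ⊢
  rw [hQ] at hb ⊢
  rw [show n + 1 + 1 = n + 2 from rfl, show m + 1 + 1 = m + 2 from rfl]
  have e' : (n : ℤ) = p * (m + 1) - 1 := by linear_combination e
  push_cast
  rw [e'] at r1 ⊢
  set M : ℤ := m + 1 with hM
  refine ⟨p * M * a + 3 * M ^ 2 * Q * trinomial m + 3 * p * M * b - (p * M + 1) ^ 2 * p * Q * a
    - (p * M + 1) * Q * M * trinomial (m + 1)
    + M * (M + 1) * (trinomial (m + 1) - trinomial (m + 2)), ?_⟩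
  linear_combination r1 - p * r2 + (p * M - (p * M + 1) ^ 2 * p * Q) * ha + 3 * p * M * hb

include hp h1 in
lemma v_forced {m n : ℕ} (hn : n + 2 = p * (m + 1)) : (p : ℤ) ^ 2 ∣ (trinomial (n + 1)
      + 3 * (1 + ((n : ℤ) + 1) * (3 ^ (p - 1) - 1)) * trinomial n)
      - ((3 ^ (p - 1) - 1) * trinomial m + p * (m + 1) * (trinomial m - trinomial (m + 1))) := by
  have h3 : p % 3 ≠ 0 := by omega
  have h2 : p ≠ 2 := by omega
  obtain ⟨Q, hQ⟩ := p_dvd_Q hp h3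
  obtain ⟨a, ha⟩ := iterS1 hp h3 h2 1 (m + 1)
  obtain ⟨b, hb⟩ := iterS2 hp h3 h2 0 m (n + 1) (by simpa using hn)
  have r1 := T_rec n
  rw [pow_one, ← hn] at ha
  rw [chi_one h1] at hb
  have e : (n : ℤ) + 2 = p * (m + 1) := by exact_mod_cast hn
  have hu : ¬ (p : ℤ) ∣ n + 1 := by
    intro h
    have : (p : ℤ) ∣ 1 := by simpa using dvd_sub (Dvd.intro _ e.symm) h
    exact (prime_int hp).not_dvd_one this
  refine (prime_int hp).pow_dvd_of_dvd_mul_left 2 hu ?_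
  rw [hQ] at hb ⊢
  have e' : (n : ℤ) = p * (m + 1) - 2 := by linear_combination e
  rw [e'] at r1 ⊢
  set M : ℤ := m + 1 with hM
  refine ⟨M * (p * a - M * Q * trinomial m - p * b) - M ^ 2 * (trinomial m - trinomial (m + 1))
    + (p * M - 1) * Q * M * (trinomial (n + 2) - 2 * trinomial (n + 1))
    + (p * M - 1) * Q * (M * Q * trinomial m + p * b), ?_⟩
  linear_combination (-(1 + (p * M - 1) * p * Q)) * r1 + p * M * ha
    + ((p * M - 1) * p * Q - p * M) * hb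

include hp h1 in
lemma explicit (hM : ∀ k, k + 2 < p → ¬ p ∣ motzkin k) :
    MSF p ↔ ∀ j < p, ¬ (p : ℤ) ∣ trinomial j ∧ ¬ (p : ℤ) ^ 2 ∣ (3 ^ (p - 1) - 1) * trinomial j
      + p * (j + 1) * (trinomial j - trinomial (j + 1)) := by
  have h3 : p % 3 ≠ 0 := by omega
  have h2 : p ≠ 2 := by omega
  have hP := prime_int hp
  have n2 := nd2 hp h3 h2
  have h5 := five_le hp h3 h2
  constructor
  · intro h j _
    refine ⟨(necessary hp h).1 j, fun hd => ?_⟩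
    obtain ⟨n, hn⟩ : ∃ n, n + 2 = p ^ (0 + 1) * (p * j + 1) :=
      ⟨p ^ (0 + 1) * (p * j + 1) - 2, Nat.sub_add_cancel (by
        simp only [zero_add, pow_one]; nlinarith [Nat.zero_le (p * (p * j))])⟩
    refine h n ((dvd_M_iff _ _).2 ((lemA hp h3 h2 hn).2 ?_))
    have := dvd_sub (w_forced hp h1 j) hd
    rw [chi_one h1]
    obtain ⟨w, hw⟩ := this
    exact ⟨w, by linear_combination hw⟩
  · intro h n hn
    have hT : ∀ j, ¬ (p : ℤ) ∣ trinomial j := fun j hj => by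
      obtain ⟨i, hi, hd⟩ := exists_small hp h3 hj
      exact (h i hi).1 hd
    have hM' : ∀ k, k + 2 < p → ¬ (p : ℤ) ∣ motzkin k := fun k hk hd =>
      hM k hk (by exact_mod_cast hd)
    have l1 := lucas hp h3
    obtain ⟨Q, hQ⟩ := p_dvd_Q hp h3
    rcases core hp h3 h2 hT ((dvd_M_iff _ _).1 hn) with
      ⟨m, hm, k, hk, hd⟩ | ⟨m, hm, j, hj, e, he, hd⟩
    · obtain ⟨w, hw⟩ := hd
      obtain ⟨a, ha⟩ := l1 m k (by omega)
      obtain ⟨b, hb⟩ := l1 m (k + 1) (by omega)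
      obtain ⟨c, hc⟩ := l1 m (k + 2) hk
      have e1 := M_three (p * m + k)
      have e2 := M_three k
      rw [add_assoc, add_assoc] at e1
      have : (p : ℤ) ∣ 2 * (motzkin k * trinomial m) := ⟨2 * p * w - 3 * a - 2 * b + c, by
        linear_combination trinomial m * e2 - e1 + 2 * hw - 3 * ha - 2 * hb + hc⟩
      rcases hP.dvd_or_dvd ((hP.dvd_or_dvd this).resolve_left n2) with h6 | h6
      · exact hM' k hk h6
      · exact hT m h6
    · obtain rfl : e = 1 := by rw [chi_one h1] at he; tauto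
      obtain ⟨a, ha⟩ := l1 m j (by omega)
      obtain ⟨b, hb⟩ := l1 m (j + 1) hj
      rw [← add_assoc] at hb
      rcases hd with hd | hd
      · rcases j with _ | j
        · refine (h m hm).2 ?_
          have := dvd_sub (w_forced hp h1 m) hd
          obtain ⟨w, hw⟩ := this
          exact ⟨w, by simp only [add_zero] at hw; linear_combination hw⟩
        · obtain ⟨w, hw⟩ := hd
          have e1 := M_A j
          rw [hQ] at hw
          have : (p : ℤ) ∣ 2 * (((j + 1 : ℕ) : ℤ) * (motzkin j * trinomial m)) :=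
            ⟨p * w + a - b + (((p * m + (j + 1) : ℕ) : ℤ) + 1) * Q * trinomial (p * m + (j + 1)), by
              push_cast at *
              linear_combination trinomial m * e1 + hw + ha - hb⟩
          rcases hP.dvd_or_dvd ((hP.dvd_or_dvd ((hP.dvd_or_dvd this).resolve_left n2)).resolve_left
            (not_dvd_small (by omega) (by omega))) with h6 | h6
          · exact hM' j (by omega) h6
          · exact hT m h6
      · by_cases hjp : j + 2 = p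
        · refine (h m hm).2 ?_
          have := dvd_sub hd (v_forced hp h1 (m := m) (n := p * m + j) (by rw [mul_add]; omega))
          obtain ⟨w, hw⟩ := this
          exact ⟨w, by linear_combination hw⟩
        · obtain ⟨w, hw⟩ := hd
          have e1 := M_B j
          rw [hQ] at hw
          have : (p : ℤ) ∣ 2 * (((j + 2 : ℕ) : ℤ) * (motzkin j * trinomial m)) :=
            ⟨p * w - 3 * a - b - 3 * (((p * m + j : ℕ) : ℤ) + 1) * Q * trinomial (p * m + j), by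
              push_cast at *
              linear_combination trinomial m * e1 + hw - 3 * ha - hb⟩
          rcases hP.dvd_or_dvd ((hP.dvd_or_dvd ((hP.dvd_or_dvd this).resolve_left n2)).resolve_left
            (not_dvd_small (by omega) (by omega))) with h6 | h6
          · exact hM' j (by omega) h6
          · exact hT m h6

end

end Pool.Agent.P.MP_93ad88_nt
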